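import Mathlib
import Pool.Agent.Helper47.Desc.PointDim
import Pool.Agent.Helper47.Chow.Corr

/-!
# Dimensions of points: proper subvarieties have smaller dimension
-/

set_option linter.style.haveILetI false
set_option linter.unusedSectionVars false

universe u v w

open CategoryTheory AlgebraicGeometry Limits Cardinal

namespace Pool.Agent.Helper11.Murre

open Pool.Agent.Helper10 Pool.Agent.Helper10.SmProjVar Pool.Agent.Helper47.Chow
open Pool.Agent.Helper47.Desc

section Algebra

variable {k A B : Type u} [Field k] [CommRing A] [IsDomain A] [CommRing B] [IsDomain B]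

lemma trdeg_lt_of_surjective [Algebra k A] [Algebra k B] (f : A →ₐ[k] B)
    (hf : Function.Surjective f) {a : A} (ha : a ≠ 0) (hfa : f a = 0)
    (hfin : Algebra.trdeg k A < ℵ₀) : Algebra.trdeg k B < Algebra.trdeg k A := by
  by_contra hlt
  rw [not_lt] at hlt
  obtain ⟨ι, x, hx⟩ := exists_isTranscendenceBasis' k B
  have hcard : #ι = Algebra.trdeg k B := hx.cardinalMk_eq_trdeg
  choose y hy using fun i => hf (x i)
  have hxy : ∀ p : MvPolynomial ι k, MvPolynomial.aeval x p = f (MvPolynomial.aeval y p) := by
    intro p
    have : MvPolynomial.aeval x = f.comp (MvPolynomial.aeval y) := by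
      ext i; simp [hy]
    rw [this]; rfl
  have hyi : AlgebraicIndependent k y := by
    rw [algebraicIndependent_iff]
    intro p hp
    apply (algebraicIndependent_iff.1 hx.1) p
    rw [hxy, hp, map_zero]
  have hyb : IsTranscendenceBasis k y :=
    hyi.isTranscendenceBasis_of_trdeg_le hfin (hlt.trans_eq hcard.symm)
  obtain ⟨r, hr, c, hc⟩ := (hyb.isAlgebraic.isAlgebraic a).exists_nonzero_dvd
    (mem_nonZeroDivisors_of_ne_zero ha)
  have hfr : f (r : A) = 0 := by
    have : (r : A) = a * c := hc
    rw [this, map_mul, hfa, zero_mul]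
  have hmem : (r : A) ∈ (MvPolynomial.aeval y : MvPolynomial ι k →ₐ[k] A).range := by
    rw [← Algebra.adjoin_range_eq_range_aeval]
    exact r.2
  obtain ⟨p, hp⟩ := hmem
  have h0 : p = 0 := by
    apply (algebraicIndependent_iff.1 hx.1) p
    rw [hxy]
    exact (congrArg f hp).trans hfr
  apply hr
  apply Subtype.ext
  rw [← hp, h0, map_zero]
  rfl

/-- The transcendence degree of a ring homomorphism. -/
noncomputable def tr {k A : Type u} [Field k] [CommRing A] (f : k →+* A) : Cardinal.{u} :=
  letI := f.toAlgebra
  Algebra.trdeg k A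

lemma tr_le_of_injective {k A B : Type u} [Field k] [CommRing A] [CommRing B] (f : k →+* A)
    (g : A →+* B) (hg : Function.Injective g) : tr f ≤ tr (g.comp f) := by
  letI := f.toAlgebra
  letI := (g.comp f).toAlgebra
  exact trdeg_le_of_injective (⟨g, fun _ => rfl⟩ : A →ₐ[k] B) hg

lemma tr_lt_of_surjective (f : k →+* A) (g : A →+* B) (hg : Function.Surjective g) {a : A}
    (ha : a ≠ 0) (hga : g a = 0) (hfin : tr f < ℵ₀) : tr (g.comp f) < tr f := by
  letI := f.toAlgebra
  letI := (g.comp f).toAlgebra
  exact trdeg_lt_of_surjective (⟨g, fun _ => rfl⟩ : A →ₐ[k] B) hg ha hga hfin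

lemma tr_le_of_surjective {k A B : Type u} [Field k] [CommRing A] [CommRing B] [Nontrivial B]
    (f : k →+* A) (g : A →+* B) (hg : Function.Surjective g) : tr (g.comp f) ≤ tr f := by
  letI := f.toAlgebra
  letI := (g.comp f).toAlgebra
  exact trdeg_le_of_surjective (⟨g, fun _ => rfl⟩ : A →ₐ[k] B) hg

lemma tr_lt_aleph0 (f : k →+* A) (h : f.FiniteType) : tr f < ℵ₀ := by
  letI := f.toAlgebra
  haveI : Algebra.FiniteType k A := h
  exact trdeg_lt_aleph0_of_finiteType

lemma tr_frac {k A B : Type u} [Field k] [CommRing A] [IsDomain A] [Field B] [Algebra A B]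
    [IsFractionRing A B] (f : k →+* A) : tr ((algebraMap A B).comp f) = tr f := by
  letI := f.toAlgebra
  letI := ((algebraMap A B).comp f).toAlgebra
  haveI : IsScalarTower k A B := IsScalarTower.of_algebraMap_eq fun _ => rfl
  haveI : FaithfulSMul k A := inferInstance
  have h := trdeg_add_eq k A (A := B)
  have h2 : Algebra.trdeg A B = 0 := by
    haveI : Algebra.IsAlgebraic A B := IsLocalization.isAlgebraic (R := A) B (nonZeroDivisors A)
    exact trdeg_eq_zero
  rw [h2, add_zero] at h
  exact h.symm

end Algebra

section Scheme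

variable {k : Type u} [Field k] (X : SmProjVar k)

/-- The structure morphism `k → 𝒪_{X,x}`. -/
noncomputable def stalkHom (x : X.toOver.left) :
    CommRingCat.of k ⟶ X.toOver.left.presheaf.stalk x :=
  Spec.preimage (X.toOver.left.fromSpecStalk x ≫ X.toOver.hom)

lemma stalkHom_residue (x : X.toOver.left) :
    stalkHom X x ≫ X.toOver.left.residue x = resHom X x := by
  apply Spec.map_injective
  rw [Spec.map_comp, stalkHom, resHom, Spec.map_preimage, Spec.map_preimage]
  rfl

lemma stalkHom_specializes {x y : X.toOver.left} (h : x ⤳ y) :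
    stalkHom X y ≫ X.toOver.left.presheaf.stalkSpecializes h = stalkHom X x := by
  apply Spec.map_injective
  rw [Spec.map_comp, stalkHom, stalkHom, Spec.map_preimage, Spec.map_preimage,
    ← Category.assoc, Scheme.SpecMap_stalkSpecializes_fromSpecStalk]

lemma trd_eq_tr (x : X.toOver.left) : trd X x = tr (resHom X x).hom := rfl

lemma tr_stalkHom (x : X.toOver.left) :
    tr (stalkHom X x).hom = tr (stalkHom X (genericPoint X.toOver.left)).hom := by
  have h : genericPoint X.toOver.left ⤳ x := (genericPoint_spec X.toOver.left).specializes trivial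
  have h1 := tr_frac (A := X.toOver.left.presheaf.stalk x) (B := X.toOver.left.functionField)
    (stalkHom X x).hom
  rw [← h1]
  have h2 : (algebraMap (X.toOver.left.presheaf.stalk x) X.toOver.left.functionField).comp
      (stalkHom X x).hom = (stalkHom X (genericPoint X.toOver.left)).hom :=
    congrArg CommRingCat.Hom.hom (stalkHom_specializes X h)
  rw [h2]

lemma trd_generic : trd X (genericPoint X.toOver.left) =
    tr (stalkHom X (genericPoint X.toOver.left)).hom := by
  rw [trd_eq_tr]
  have h1 : (resHom X (genericPoint X.toOver.left)).hom =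
      (X.toOver.left.residue (genericPoint X.toOver.left)).hom.comp
        (stalkHom X (genericPoint X.toOver.left)).hom :=
    congrArg CommRingCat.Hom.hom (stalkHom_residue X _).symm
  rw [h1]
  refine le_antisymm (tr_le_of_surjective _ _ (X.toOver.left.residue_surjective _)) ?_
  refine tr_le_of_injective _ _ ?_
  letI : Field (X.toOver.left.presheaf.stalk (genericPoint X.toOver.left)) :=
    inferInstanceAs (Field X.toOver.left.functionField)
  exact RingHom.injective _

lemma tr_lt : tr (stalkHom X (genericPoint X.toOver.left)).hom < ℵ₀ := by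
  obtain ⟨_, ⟨U, hU, rfl⟩, hxU, -⟩ := X.toOver.left.isBasis_affineOpens.exists_subset_of_mem_open
    (Set.mem_univ (genericPoint X.toOver.left)) isOpen_univ
  haveI : Nonempty U := ⟨⟨_, hxU⟩⟩
  let φ : CommRingCat.of k ⟶ Γ(X.toOver.left, U) := Spec.preimage (hU.fromSpec ≫ X.toOver.hom)
  have hφ : φ.hom.FiniteType := by
    have h1 : LocallyOfFiniteType (Spec.map φ) := by
      rw [Spec.map_preimage]
      infer_instance
    exact (HasRingHomProperty.Spec_iff (P := @LocallyOfFiniteType)).1 h1
  have h2 : φ ≫ X.toOver.left.presheaf.germ U _ hxU =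
      stalkHom X (genericPoint X.toOver.left) := by
    apply Spec.map_injective
    rw [Spec.map_comp, stalkHom, Spec.map_preimage, Spec.map_preimage,
      ← hU.fromSpecStalk_eq_fromSpecStalk hxU, IsAffineOpen.fromSpecStalk, Category.assoc]
  haveI := functionField_isFractionRing_of_isAffineOpen X.toOver.left U hU
  have h3 := tr_frac (A := Γ(X.toOver.left, U)) (B := X.toOver.left.functionField) φ.hom
  have h4 : (algebraMap Γ(X.toOver.left, U) X.toOver.left.functionField).comp φ.hom =
      (stalkHom X (genericPoint X.toOver.left)).hom := congrArg CommRingCat.Hom.hom h2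
  rw [← h4]
  refine lt_of_eq_of_lt h3 ?_
  exact tr_lt_aleph0 _ hφ

lemma trd_le (x : X.toOver.left) : trd X x ≤ trd X (genericPoint X.toOver.left) := by
  rw [trd_generic, ← tr_stalkHom X x, trd_eq_tr]
  have h1 : (resHom X x).hom = (X.toOver.left.residue x).hom.comp (stalkHom X x).hom :=
    congrArg CommRingCat.Hom.hom (stalkHom_residue X _).symm
  rw [h1]
  exact tr_le_of_surjective _ _ (X.toOver.left.residue_surjective _)

lemma trd_lt_of_ne (x : X.toOver.left) (hx : x ≠ genericPoint X.toOver.left) :
    trd X x < trd X (genericPoint X.toOver.left) := by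
  rw [trd_generic, ← tr_stalkHom X x, trd_eq_tr]
  have h1 : (resHom X x).hom = (X.toOver.left.residue x).hom.comp (stalkHom X x).hom :=
    congrArg CommRingCat.Hom.hom (stalkHom_residue X _).symm
  rw [h1]
  obtain ⟨a, ha, ha0⟩ : ∃ a : X.toOver.left.presheaf.stalk x, a ≠ 0 ∧
      (X.toOver.left.residue x).hom a = 0 := by
    by_contra hne
    push Not at hne
    apply hx
    have hinj : Function.Injective (X.toOver.left.residue x).hom := by
      rw [injective_iff_map_eq_zero]
      intro a ha
      by_contra h
      exact hne a h ha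
    have hη : genericPoint X.toOver.left ∈ Set.range (X.toOver.left.fromSpecStalk x) := by
      rw [Scheme.range_fromSpecStalk]
      exact (genericPoint_spec X.toOver.left).specializes trivial
    obtain ⟨p, hp⟩ := hη
    have hfield : IsField (X.toOver.left.presheaf.stalk x) :=
      (MulEquiv.isField (Field.toIsField (X.toOver.left.residueField x))
        (RingEquiv.ofBijective (X.toOver.left.residue x).hom
          ⟨hinj, X.toOver.left.residue_surjective _⟩).toMulEquiv)
    have hsub : Subsingleton (PrimeSpectrum (X.toOver.left.presheaf.stalk x)) := by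
      letI := hfield.toField
      exact ⟨fun p q => by
        apply PrimeSpectrum.ext
        rcases Ideal.eq_bot_or_top p.asIdeal with h | h
        · rcases Ideal.eq_bot_or_top q.asIdeal with h' | h'
          · rw [h, h']
          · exact absurd h' q.2.ne_top
        · exact absurd h p.2.ne_top⟩
    have hpc : p = IsLocalRing.closedPoint _ := hsub.elim _ _
    rw [hpc, Scheme.fromSpecStalk_closedPoint] at hp
    exact hp
  refine tr_lt_of_surjective _ _ (X.toOver.left.residue_surjective _) ha ha0 ?_
  rw [tr_stalkHom]
  exact tr_lt X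

lemma trd_generic_lt : trd X (genericPoint X.toOver.left) < ℵ₀ := by
  rw [trd_generic]
  exact tr_lt X

theorem pointDim_le_generic (x : X.Pt) : X.pointDim x ≤ X.pointDim X.genericPt :=
  Cardinal.toNat_le_toNat (trd_le X x) (trd_generic_lt X)

theorem pointDim_lt_generic (x : X.Pt) (hx : x ≠ X.genericPt) :
    X.pointDim x < X.pointDim X.genericPt :=
  (Cardinal.toNat_lt_iff_lt_of_lt_aleph0 ((trd_le X x).trans_lt (trd_generic_lt X))
    (trd_generic_lt X)).2 (trd_lt_of_ne X x hx)

end Scheme

end Pool.Agent.Helper11.Murre
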