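import Mathlib
import Pool.Agent.Helper47.Desc.Nil
import Pool.Agent.Helper47.Chow.HomAct
import Pool.Agent.Helper15.Chow.Point
import Pool.Agent.Helper11.Murre.Dim

/-!
# Murre's conjecture (D) and the Lefschetz isomorphisms
-/

universe u v w

open CategoryTheory AlgebraicGeometry Limits

namespace Pool.Agent.Helper11.Murre

open Pool.Agent.Helper10 Pool.Agent.Helper10.SmProjVar Pool.Agent.Helper47.Chow
open Pool.Agent.Helper47.Desc

variable {k : Type u} [Field k] {K : Type v} [Field K] [CharZero K]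
  {W : WeilCohomology.{u, v, w} k K}

section Dim

lemma pointDim_le (W : WeilCohomology.{u, v, w} k K) (X : SmProjVar k) (x : X.Pt) :
    X.pointDim x ≤ X.dim := by
  rw [← pointDim_genericPt W X]
  exact pointDim_le_generic X x

lemma eq_generic_of_pointDim (W : WeilCohomology.{u, v, w} k K) (X : SmProjVar k) (x : X.Pt)
    (h : X.pointDim x = X.dim) : x = X.genericPt := by
  by_contra hne
  have := pointDim_lt_generic X x hne
  rw [pointDim_genericPt W X, h] at this
  exact lt_irrefl _ this

variable (C : ChowTheory W)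

/-- Cycles of dimension larger than the dimension of the target have push-forward zero. -/
lemma push_eq_zero {X Y : SmProjVar k} (f : X.toOver ⟶ Y.toOver) (i : ℕ)
    (h : i + Y.dim < X.dim) (a : CH X) (ha : a ∈ CHi X i) : C.push f a = 0 := by
  obtain ⟨z, hz, rfl⟩ := ha
  rw [← ChowTheory.clsL_apply, ChowTheory.cls_eq_sum, Finsupp.sum, map_sum]
  refine Finset.sum_eq_zero fun x hx => ?_
  rw [map_smul, C.push_ptCls]
  have h1 := hz x (Finsupp.mem_support_iff.1 hx)
  have h2 := pointDim_le W Y (f.left x)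
  rw [if_neg (by omega), zero_smul, smul_zero]

omit C in
/-- `CH^0(X)` is spanned by the class of `X`. -/
lemma exists_smul_one (W : WeilCohomology.{u, v, w} k K) {X : SmProjVar k} (a : CH X)
    (ha : a ∈ CHi X 0) : ∃ q : ℚ, a = q • one X := by
  obtain ⟨z, hz, rfl⟩ := ha
  rw [← ChowTheory.clsL_apply, ChowTheory.cls_eq_sum]
  let z' : X.Pt →₀ ℚ := z
  refine ⟨∑ x ∈ z'.support, z' x, ?_⟩
  rw [Finsupp.sum, Finset.sum_smul]
  refine Finset.sum_congr rfl fun x hx => ?_
  have h1 := hz x (Finsupp.mem_support_iff.1 hx)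
  rw [eq_generic_of_pointDim W X x (by omega)]
  rfl

lemma cl_one_ne_zero (X : SmProjVar k) : C.cl X (one X) ≠ 0 := by
  intro h
  obtain ⟨x, hx0, hxd⟩ := Helper15.Chow.exists_closed_point X
  have h1 := tr_cl_ptCls C x hx0
  rw [← C.one_mul X (ptCls X x), C.cl_mul, h, zero_mul, ChowTheory.tr_zero] at h1
  exact hxd (by exact_mod_cast h1.symm)

/-- Homologically trivial classes of codimension `0` are zero. -/
lemma eq_zero_of_codim_zero {X : SmProjVar k} (a : CH X) (ha : a ∈ CHi X 0)
    (h : C.cl X a = 0) : a = 0 := by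
  obtain ⟨q, rfl⟩ := exists_smul_one W a ha
  rw [cl_smul] at h
  rcases smul_eq_zero.1 h with h | h
  · have : q = 0 := by exact_mod_cast h
    rw [this, zero_smul]
  · exact absurd h (cl_one_ne_zero C X)

end Dim

/-- For `j < dim X` the isomorphism between `H^j(X)` and `H^{2 dim X - j}(X)` is algebraic: there
are correspondences `u` and `v` such that `H^{2d-j}(X) → H^j(X) → H^{2d-j}(X)` (first `v`, then
`u`) is the identity.  (This follows from the Lefschetz standard conjecture for `X`.) -/
def HasLefschetz (C : ChowTheory W) (X : SmProjVar k) : Prop :=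
  ∀ j, j < X.dim → ∃ u ∈ CHi (X.prod X) (2 * X.dim - j), ∃ v ∈ CHi (X.prod X) j,
    ∀ x ∈ W.gr X (2 * X.dim - j), ∀ y : W.H X,
      W.tr (X.prod X) (W.pull (fst X X) x * C.ops.cl _ (C.comp v u) * W.pull (snd X X) y) =
        W.tr X (x * y)

/-- A correspondence of degree zero which acts as zero on `H^1(X)` kills the homologically trivial
divisor classes. -/
def HasPicard (C : ChowTheory W) (X : SmProjVar k) : Prop :=
  ∀ γ ∈ CHi (X.prod X) X.dim, (∀ x ∈ W.gr X 1, ∀ y : W.H X,
      W.tr (X.prod X) (W.pull (fst X X) x * C.ops.cl _ γ * W.pull (snd X X) y) = 0) →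
    ∀ a ∈ CHi X 1, C.ops.cl X a = 0 → C.act γ a = 0

variable {C : ChowTheory W} {X : SmProjVar k}

lemma smul_eq_pow {R M : Type*} [Ring R] [AddCommGroup M] [Module R M] {e n : R} {a : M}
    (h1 : n * e = n) (h2 : (e + n) • a = 0) (m : ℕ) : e • a = (-n) ^ (m + 1) • a := by
  have h3 : e • a = (-n) • a := by
    rw [neg_smul]
    rw [add_smul] at h2
    exact eq_neg_of_add_eq_zero_left h2
  induction m with
  | zero => rw [zero_add, pow_one]; exact h3
  | succ m ih =>
    have h4 : (-n) ^ (m + 1) * e = (-n) ^ (m + 1) := by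
      rw [pow_succ, mul_assoc, neg_mul, h1]
    calc e • a = (-n) ^ (m + 1) • a := ih
      _ = ((-n) ^ (m + 1) * e) • a := by rw [h4]
      _ = (-n) ^ (m + 1) • (e • a) := mul_smul _ _ _
      _ = (-n) ^ (m + 1) • ((-n) • a) := by rw [h3]
      _ = (-n) ^ (m + 1 + 1) • a := by rw [← mul_smul, ← pow_succ]

/-- If the homologically trivial correspondences are nilpotent, the isomorphisms between `H^j` and
`H^{2d-j}` are algebraic, `2 i > d` and (D) holds in all codimensions `≤ d - i`, then (D) holds in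
codimension `i`. -/
theorem murreD_of_lefschetz (h : NilHom C X) (hL : HasLefschetz C X) {π : ℕ → CH (X.prod X)}
    (hπ : C.IsCK X π) (i : ℕ) (hi : X.dim < 2 * i)
    (hD : ∀ i', i' + i ≤ X.dim → C.MurreD X π i') : C.MurreD X π i := by
  rw [murreD_iff hπ]
  intro a ha h0 l hl
  by_cases hl2 : 2 * X.dim < l
  · rw [hπ.zero l hl2, C.act_zero']
  obtain ⟨j, hj⟩ : ∃ j, j + l = 2 * X.dim := ⟨2 * X.dim - l, by omega⟩
  have hjd : j < X.dim := by omega
  have hlj : 2 * X.dim - j = l := by omega
  obtain ⟨u, hu, v, hv, huv⟩ := hL j hjd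
  rw [hlj] at hu huv
  -- the correspondence `e u f v e`, `e = π l`, `f = π j`
  set t : CH (X.prod X) := C.comp (π l) v with ht
  have htm : t ∈ CHi (X.prod X) j := comp_mem' C _ _ (hπ.mem l) hv (by omega)
  set t2 : CH (X.prod X) := C.comp t (π j) with ht2
  have ht2m : t2 ∈ CHi (X.prod X) j := comp_mem' C _ _ htm (hπ.mem j) rfl
  set t3 : CH (X.prod X) := C.comp t2 u with ht3
  have ht3m : t3 ∈ CHi (X.prod X) X.dim := comp_mem' C _ _ ht2m hu (by omega)
  set w : CH (X.prod X) := C.comp t3 (π l) with hw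
  have hwm : w ∈ CHi (X.prod X) X.dim := comp_mem' C _ _ ht3m (hπ.mem l) rfl
  have hwact : ∀ x, hAct C w x =
      hAct C (π l) (hAct C u (hAct C (π j) (hAct C v (hAct C (π l) x)))) := by
    intro x
    rw [hw, hAct_comp C _ _ ht3m (hπ.mem l) (l := X.dim) rfl, ht3,
      hAct_comp C _ _ ht2m hu (l := X.dim) (by omega), ht2,
      hAct_comp C _ _ htm (hπ.mem j) (l := j) rfl, ht,
      hAct_comp C _ _ (hπ.mem l) hv (l := j) (by omega)]
  have hnm : w - π l ∈ CHi (X.prod X) X.dim :=
    Submodule.sub_mem (CHiL (X.prod X) X.dim) hwm (hπ.mem l)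
  have hn0 : C.cl _ (w - π l) = 0 := by
    refine cl_eq_zero_of_hAct C _ hnm fun m x hx => ?_
    rw [hAct_sub_left, hwact]
    by_cases hm : m = l
    · subst hm
      have h1 : hAct C (π m) x = x := IsCK.hAct_same hπ m x hx
      rw [h1]
      have h2 : hAct C v x ∈ W.gr X j := hAct_mem C v hv x hx (by omega)
      rw [IsCK.hAct_same hπ j _ h2]
      have h3 : hAct C u (hAct C v x) = x := by
        rw [← hAct_comp C v u hv hu (l := X.dim) (by omega)]
        apply eq_of_tr
        intro y
        rw [tr_hAct, pairH_apply]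
        exact huv x hx y
      rw [h3, h1, sub_self]
    · have h1 : hAct C (π l) x = 0 := IsCK.hAct_other hπ l m (Ne.symm hm) x hx
      rw [h1, hAct_zero, hAct_zero, hAct_zero, hAct_zero, sub_zero]
  -- `w` kills `a`
  have hwa : C.act w a = 0 := by
    rw [hw, C.act_comp, ht3, C.act_comp, ht2, C.act_comp, ht, C.act_comp]
    have h1 : C.act (π l) a ∈ CHi X i := C.act_mem _ (hπ.mem l) _ _ ha
    have h2 : C.cl X (C.act (π l) a) = 0 := C.cl_act_of_left _ _ h0
    have h3 : C.act (π j) (C.act v (C.act (π l) a)) = 0 := by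
      by_cases hij : X.dim ≤ i + j
      · have h4 : C.act v (C.act (π l) a) ∈ CHi X (i + j - X.dim) :=
          act_mem' C v hv _ h1 (by omega)
        exact (murreD_iff hπ _).1 (hD _ (by omega)) _ h4 (C.cl_act_of_left _ _ h2) j (by omega)
      · have h4 : C.act v (C.act (π l) a) = 0 := by
          rw [C.act_apply]
          refine push_eq_zero C _ (i + j) ?_ _ (C.mul_mem _ _ _ _ _ (C.pull_mem _ _ _ h1) hv)
          change i + j + X.dim < X.dim + X.dim
          omega
        rw [h4, C.act_zero]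
    rw [h3, C.act_zero, C.act_zero]
  -- conclusion in the ring of correspondences
  let e : Corr C X := ⟨π l, hπ.mem l⟩
  let n : Corr C X := ⟨w - π l, hnm⟩
  have hen : n * e = n := by
    apply Corr.ext
    rw [Corr.mul_val]
    change C.comp (π l) (w - π l) = w - π l
    have h1 : C.comp (π l) w = w := by
      rw [hw, ht3, ht2, ht, ← C.comp_assoc, ← C.comp_assoc, ← C.comp_assoc, ← C.comp_assoc,
        hπ.idem]
    have h2 : C.comp (π l) (w - π l) = C.comp (π l) w - C.comp (π l) (π l) := by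
      rw [sub_eq_add_neg, ← neg_one_smul ℚ (π l), C.comp_add, C.comp_smul, neg_one_smul,
        ← sub_eq_add_neg]
    rw [h2, h1, hπ.idem]
  have hwe : (e + n) • (⟨a, ha⟩ : CHiL X i) = 0 := by
    refine Subtype.ext ?_
    rw [smul_val, Corr.add_val]
    change C.act (π l + (w - π l)) a = 0
    rw [add_sub_cancel]
    exact hwa
  have hnil : IsNilpotent n := by
    obtain ⟨m, hm⟩ := h (w - π l) hnm hn0
    refine ⟨m, Corr.ext ?_⟩
    rw [ChowTheory.pow_val]
    exact hm
  obtain ⟨m, hm⟩ := hnil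
  have h5 := smul_eq_pow hen hwe m
  rw [pow_succ, neg_pow, hm, mul_zero, zero_mul, zero_smul] at h5
  exact congrArg Subtype.val h5

/-- (D) in codimension `0`. -/
lemma murreD_zero {π : ℕ → CH (X.prod X)} (hπ : C.IsCK X π) : C.MurreD X π 0 := by
  rw [murreD_iff hπ]
  intro a ha h0 j _
  rw [eq_zero_of_codim_zero C a ha h0, C.act_zero]

/-- (D) in codimension `1`. -/
lemma murreD_one (hP : HasPicard C X) {π : ℕ → CH (X.prod X)} (hπ : C.IsCK X π) :
    C.MurreD X π 1 := by
  rw [murreD_iff hπ]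
  intro a ha h0 j hj
  exact hP _ (hπ.mem j) (fun x hx y => hπ.act_other j 1 (by omega) x hx y) a ha h0

/-- Murre's conjecture (D) in all codimensions follows from (D) in the codimensions `i ≤ d / 2`. -/
theorem murreD_of_half (h : NilHom C X) (hL : HasLefschetz C X) {π : ℕ → CH (X.prod X)}
    (hπ : C.IsCK X π) (hD : ∀ i, 2 * i ≤ X.dim → C.MurreD X π i) (i : ℕ) : C.MurreD X π i := by
  by_cases hi : 2 * i ≤ X.dim
  · exact hD i hi
  · exact murreD_of_lefschetz h hL hπ i (by omega) fun i' hi' => hD i' (by omega)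

/-- Murre's conjecture (D) in the codimensions `0`, `1` and `≥ dim X - 1`. -/
theorem murreD_of_picard (h : NilHom C X) (hL : HasLefschetz C X) (hP : HasPicard C X)
    {π : ℕ → CH (X.prod X)} (hπ : C.IsCK X π) (i : ℕ) (hi : i ≤ 1 ∨ X.dim ≤ i + 1) :
    C.MurreD X π i := by
  rcases Nat.lt_or_ge 1 i with h1 | h1
  · refine murreD_of_lefschetz h hL hπ i (by omega) fun i' hi' => ?_
    obtain rfl | rfl : i' = 0 ∨ i' = 1 := by omega
    · exact murreD_zero hπ
    · exact murreD_one hP hπ
  · obtain rfl | rfl : i = 0 ∨ i = 1 := by omega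
    · exact murreD_zero hπ
    · exact murreD_one hP hπ

/-- Murre's conjecture (D) in dimension at most three. -/
theorem murreD_of_dim_le_three (h : NilHom C X) (hL : HasLefschetz C X) (hP : HasPicard C X)
    (hd : X.dim ≤ 3) {π : ℕ → CH (X.prod X)} (hπ : C.IsCK X π) (i : ℕ) : C.MurreD X π i :=
  murreD_of_picard h hL hP hπ i (by omega)

end Pool.Agent.Helper11.Murre
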