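import Mathlib
import Pool.Agent.Helper11.Murre.S4

/-!
# Existence of Chow-Künneth decompositions
-/

universe u v w

open CategoryTheory AlgebraicGeometry Limits

namespace Pool.Agent.Helper11.Murre

open Pool.Agent.Helper10 Pool.Agent.Helper10.SmProjVar Pool.Agent.Helper47.Chow
open Pool.Agent.Helper47.Desc

variable {k : Type u} [Field k] {K : Type v} [Field K] [CharZero K]
  {W : WeilCohomology.{u, v, w} k K}

/-- The Künneth components of the diagonal are algebraic: for every `l` there is a correspondence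
which acts as the identity on `H^l(X)` and as `0` on `H^m(X)` for `m ≠ l`. -/
def HasKunneth (C : ChowTheory W) (X : SmProjVar k) : Prop :=
  ∀ l, ∃ p ∈ CHi (X.prod X) X.dim,
    (∀ x ∈ W.gr X l, ∀ y : W.H X,
      W.tr (X.prod X) (W.pull (fst X X) x * C.ops.cl _ p * W.pull (snd X X) y) = W.tr X (x * y)) ∧
    ∀ m, m ≠ l → ∀ x ∈ W.gr X m, ∀ y : W.H X,
      W.tr (X.prod X) (W.pull (fst X X) x * C.ops.cl _ p * W.pull (snd X X) y) = 0

variable {C : ChowTheory W} {X : SmProjVar k}

lemma eq_cl_of_hAct {γ δ : CH (X.prod X)} (hγ : γ ∈ CHi (X.prod X) X.dim)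
    (hδ : δ ∈ CHi (X.prod X) X.dim) (h : ∀ l, ∀ x ∈ W.gr X l, hAct C γ x = hAct C δ x) :
    C.cl _ (γ - δ) = 0 := by
  refine cl_eq_zero_of_hAct C _ (Submodule.sub_mem (CHiL (X.prod X) X.dim) hγ hδ) fun l x hx => ?_
  rw [hAct_sub_left, h l x hx, sub_self]

theorem exists_isCK_of_kunneth (h : NilHom C X) (hK : HasKunneth C X) : ∃ π, C.IsCK X π := by
  choose p hp hp1 hp2 using hK
  have h1 : ∀ l, ∀ x ∈ W.gr X l, hAct C (p l) x = x := by
    intro l x hx
    apply eq_of_tr
    intro y
    rw [tr_hAct, pairH_apply]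
    exact hp1 l x hx y
  have h2 : ∀ l m, m ≠ l → ∀ x ∈ W.gr X m, hAct C (p l) x = 0 := by
    intro l m hm x hx
    apply eq_of_tr
    intro y
    rw [tr_hAct, pairH_apply, zero_mul, ChowTheory.tr_zero]
    exact hp2 l m hm x hx y
  let P : ℕ → Corr C X := fun l => ⟨p l, hp l⟩
  let f := Ideal.Quotient.mk (homIdeal C X)
  have hf : ∀ γ δ : Corr C X, (∀ l, ∀ x ∈ W.gr X l, hAct C γ.val x = hAct C δ.val x) →
      f γ = f δ := by
    intro γ δ hγδ
    refine (Ideal.Quotient.eq).2 ?_
    exact eq_cl_of_hAct γ.2 δ.2 hγδ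
  have hker : ∀ x ∈ RingHom.ker f, IsNilpotent x := by
    intro x hx
    rw [Ideal.mk_ker] at hx
    obtain ⟨n, hn⟩ := h x.1 x.2 hx
    exact ⟨n, Corr.ext ((ChowTheory.pow_val x n).trans hn)⟩
  have hmul : ∀ l m x, hAct C (P l * P m).val x = hAct C (p l) (hAct C (p m) x) := by
    intro l m x
    rw [Corr.mul_val]
    exact hAct_comp C _ _ (hp m) (hp l) (l := X.dim) rfl x
  have he : CompleteOrthogonalIdempotents (fun l : Fin (2 * X.dim + 1) => f (P l)) := by
    refine ⟨⟨fun l => ?_, fun l m hlm => ?_⟩, ?_⟩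
    · change f (P l) * f (P l) = f (P l)
      rw [← map_mul]
      apply hf
      intro m x hx
      rw [hmul]
      by_cases hm : m = l
      · subst hm
        rw [h1 _ x hx, h1 _ x hx]
        exact (h1 _ x hx).symm
      · rw [h2 l m hm x hx, hAct_zero]
        exact (h2 l m hm x hx).symm
    · change f (P l) * f (P m) = 0
      rw [← map_mul, ← map_zero f]
      apply hf
      intro n x hx
      rw [hmul, Corr.zero_val, hAct_zero_left]
      by_cases hn : n = m
      · subst hn
        rw [h1 _ x hx, h2 l m (fun h => hlm (Fin.ext h.symm)) x hx]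
      · rw [h2 m n hn x hx, hAct_zero]
    · rw [← map_sum, ← map_one f]
      apply hf
      intro n x hx
      rw [Corr.sum_val, Corr.one_val, hAct_Δ, hAct_sum_left]
      by_cases hn : n ≤ 2 * X.dim
      · rw [Finset.sum_eq_single (⟨n, by omega⟩ : Fin (2 * X.dim + 1))]
        · exact h1 n x hx
        · intro m _ hm
          exact h2 m n (fun h => hm (Fin.ext h.symm)) x hx
        · intro h; exact absurd (Finset.mem_univ _) h
      · have hx0 : x = 0 := by
          have := (W.graded X).eq_bot n (by omega)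
          rw [this] at hx
          exact hx
        rw [hx0]
        exact Finset.sum_eq_zero fun m _ => hAct_zero C _
  obtain ⟨e, he1, he2⟩ := CompleteOrthogonalIdempotents.lift_of_isNilpotent_ker f hker he
    fun l => ⟨P l, rfl⟩
  have hcl : ∀ l : Fin (2 * X.dim + 1), C.cl _ (e l).val = C.cl _ (p l) := by
    intro l
    have h3 : f (e l) = f (P l) := congrFun he2 l
    have h4 : C.cl _ ((e l).val - (P l).val) = 0 := (Ideal.Quotient.eq).1 h3
    rwa [map_sub, sub_eq_zero] at h4
  refine ⟨fun l => if hl : l < 2 * X.dim + 1 then (e ⟨l, hl⟩).val else 0, ?_, ?_, ?_, ?_, ?_, ?_, ?_⟩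
  · intro l
    split_ifs with hl
    · exact (e ⟨l, hl⟩).2
    · exact (CHiL (X.prod X) X.dim).zero_mem
  · intro l hl
    rw [dif_neg (by omega)]
  · intro l
    split_ifs with hl
    · exact congrArg Corr.val (he1.idem ⟨l, hl⟩)
    · exact C.comp_zero _
  · intro l m hlm
    split_ifs with hl hm
    · exact congrArg Corr.val (he1.ortho (i := ⟨m, hm⟩) (j := ⟨l, hl⟩)
        (fun h => hlm (congrArg Fin.val h).symm))
    · exact C.comp_zero _
    · exact C.zero_comp _
    · exact C.comp_zero _
  · have h3 := congrArg Corr.val he1.complete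
    rw [Corr.sum_val] at h3
    rw [Finset.sum_range]
    refine Eq.trans ?_ h3
    refine Finset.sum_congr rfl fun l _ => ?_
    rw [dif_pos l.2]
  · intro l x hx y
    split_ifs with hl
    · have := hcl ⟨l, hl⟩
      change W.tr _ (W.pull (fst X X) x * C.cl _ (e ⟨l, hl⟩).val * W.pull (snd X X) y) = _
      rw [this]
      exact hp1 l x hx y
    · have hx0 : x = 0 := by
        have := (W.graded X).eq_bot l (by omega)
        rw [this] at hx
        exact hx
      rw [hx0, ChowTheory.pull_zero, zero_mul, zero_mul, zero_mul, ChowTheory.tr_zero,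
        ChowTheory.tr_zero]
  · intro l m hlm x hx y
    split_ifs with hl
    · have := hcl ⟨l, hl⟩
      change W.tr _ (W.pull (fst X X) x * C.cl _ (e ⟨l, hl⟩).val * W.pull (snd X X) y) = _
      rw [this]
      exact hp2 l m (Ne.symm hlm) x hx y
    · change W.tr _ (W.pull (fst X X) x * C.cl _ 0 * W.pull (snd X X) y) = _
      rw [map_zero, mul_zero, zero_mul, ChowTheory.tr_zero]

end Pool.Agent.Helper11.Murre
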