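import Mathlib
import Pool.Agent.Helper47.Desc.Nil
import Pool.Agent.Helper47.Chow.HomAct

/-!
# Invariant correspondences which factor through another variety
-/

universe u v w

open CategoryTheory AlgebraicGeometry Limits

namespace Pool.Agent.Helper11.Murre

open Pool.Agent.Helper10 Pool.Agent.Helper10.SmProjVar Pool.Agent.Helper47.Chow
open Pool.Agent.Helper47.Desc

attribute [local simp] SmProjVar.lift_fst_assoc SmProjVar.lift_snd_assoc

variable {k : Type u} [Field k] {K : Type v} [Field K] [CharZero K]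
  {W : WeilCohomology.{u, v, w} k K}

/-- The combinations of the compositions `b ∘ a` with `a ∈ A`, `b ∈ B`, where `A` consists of
correspondences from `X` to `M` and `B` of correspondences from `M` to `X`. -/
noncomputable def through (C : ChowTheory W) {X M : SmProjVar k} (A : Set (CH (X.prod M)))
    (B : Set (CH (M.prod X))) : Submodule ℚ (CH (X.prod X)) :=
  Submodule.span ℚ {z | ∃ a ∈ A, ∃ b ∈ B, z = C.comp a b}

/-- `S` is a space of self-correspondences of `M` which is closed under composition, and the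
homologically trivial elements of `S` form a nilpotent ring. -/
structure IsNilRing (C : ChowTheory W) (M : SmProjVar k) (S : Submodule ℚ (CH (M.prod M))) :
    Prop where
  comp_mem : ∀ σ ∈ S, ∀ τ ∈ S, C.comp σ τ ∈ S
  nil : ∃ N : ℕ, ∀ l : List (CH (M.prod M)), l.length = N →
    (∀ σ ∈ l, σ ∈ S ∧ C.ops.cl _ σ = 0) → compList C M l = 0

/-- Every `Γ`-invariant class in `CH^d(X × X)`, `d = dim X`, is a combination of the diagonal and of
correspondences which factor through `M`. -/
def FactorInv (C : ChowTheory W) (X : SmProjVar k) (Γ : Subgroup (SemiAut X)) {M : SmProjVar k}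
    (A : Set (CH (X.prod M))) (B : Set (CH (M.prod X))) : Prop :=
  ∀ γ ∈ CHi (X.prod X) X.dim, (∀ g ∈ Γ, (Pool.Agent.Helper47.Desc.sq g).chow γ = γ) →
    ∃ c : ℚ, ∃ z ∈ through C A B, γ = c • C.Δ X + z

section Factor

variable {C : ChowTheory W} {X M : SmProjVar k}

lemma comp_through_comp {A : Set (CH (X.prod M))} {B : Set (CH (M.prod X))}
    {S : Submodule ℚ (CH (M.prod M))} (hS : IsNilRing C M S)
    (hBA : ∀ a ∈ A, ∀ b ∈ B, C.comp b a ∈ S) {a : CH (X.prod M)} (ha : a ∈ A)
    {b : CH (M.prod X)} (hb : b ∈ B) {z : CH (X.prod X)} (hz : z ∈ through C A B) :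
    C.comp (C.comp b z) a ∈ S := by
  refine Submodule.span_induction (p := fun z _ => C.comp (C.comp b z) a ∈ S) ?_ ?_ ?_ ?_ hz
  · rintro _ ⟨a', ha', b', hb', rfl⟩
    have h1 : C.comp (C.comp b (C.comp a' b')) a = C.comp (C.comp b a') (C.comp b' a) := by
      rw [← C.comp_assoc b a' b', C.comp_assoc (C.comp b a') b' a]
    rw [h1]
    exact hS.comp_mem _ (hBA a' ha' b hb) _ (hBA a ha b' hb')
  · rw [C.comp_zero, C.zero_comp]
    exact S.zero_mem
  · intro x y _ _ hx hy
    rw [C.comp_add, C.add_comp]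
    exact S.add_mem hx hy
  · intro q x _ hx
    rw [C.comp_smul, C.smul_comp]
    exact S.smul_mem q hx

/-- The composition of `2 m + 1` homologically trivial correspondences which factor through `M` is a
combination of compositions `b ∘ σ ∘ a`, where `σ` is a composition of `m` homologically trivial
elements of `S`. -/
lemma compList_mem_span {A : Set (CH (X.prod M))} {B : Set (CH (M.prod X))}
    {S : Submodule ℚ (CH (M.prod M))} (hS : IsNilRing C M S)
    (hBA : ∀ a ∈ A, ∀ b ∈ B, C.comp b a ∈ S) (m : ℕ) :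
    ∀ l : List (CH (X.prod X)), l.length = 2 * m + 1 →
      (∀ γ ∈ l, γ ∈ through C A B ∧ C.ops.cl _ γ = 0) →
      compList C X l ∈ Submodule.span ℚ {z | ∃ a ∈ A, ∃ b ∈ B, ∃ l' : List (CH (M.prod M)),
        l'.length = m ∧ (∀ σ ∈ l', σ ∈ S ∧ C.ops.cl _ σ = 0) ∧
          z = C.comp (C.comp a (compList C M l')) b} := by
  induction m with
  | zero =>
    intro l hl h
    obtain ⟨γ, rfl⟩ := List.length_eq_one_iff.1 hl
    have hγ := (h γ (by simp)).1
    change C.comp (C.Δ X) γ ∈ _
    rw [C.Δ_comp]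
    refine Submodule.span_mono ?_ hγ
    rintro _ ⟨a, ha, b, hb, rfl⟩
    refine ⟨a, ha, b, hb, [], rfl, by simp, ?_⟩
    change _ = C.comp (C.comp a (C.Δ M)) b
    rw [C.comp_Δ]
  | succ m ih =>
    intro l hl h
    match l, hl with
    | r₁ :: r₂ :: l, hl =>
      have hl' : l.length = 2 * m + 1 := by
        simp only [List.length_cons] at hl
        omega
      have h1 := ih l hl' fun γ hγ => h γ (by simp [hγ])
      have h2 := h r₂ (by simp)
      have h3 := h r₁ (by simp)
      change C.comp (C.comp (compList C X l) r₂) r₁ ∈ _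
      refine Submodule.span_induction (p := fun z _ => C.comp (C.comp z r₂) r₁ ∈ _) ?_ ?_ ?_ ?_ h1
      · rintro _ ⟨a, ha, b, hb, l', hl1, hl2, rfl⟩
        refine Submodule.span_induction (p := fun z _ =>
          C.comp (C.comp (C.comp (C.comp a (compList C M l')) b) r₂) z ∈ _) ?_ ?_ ?_ ?_ h3.1
        · rintro _ ⟨a', ha', b', hb', rfl⟩
          refine Submodule.subset_span ⟨a, ha, b', hb',
            C.comp (C.comp b r₂) a' :: l', by simp [hl1], ?_, ?_⟩
          · intro σ hσ
            rcases List.mem_cons.1 hσ with rfl | hσ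
            · exact ⟨comp_through_comp hS hBA ha' hb h2.1,
                C.cl_comp_of_left _ _ (C.cl_comp_of_right _ _ h2.2)⟩
            · exact hl2 σ hσ
          · change _ = C.comp (C.comp a (C.comp (compList C M l') (C.comp (C.comp b r₂) a'))) b'
            simp only [C.comp_assoc]
        · rw [C.comp_zero]
          exact Submodule.zero_mem _
        · intro x y _ _ hx hy
          rw [C.comp_add]
          exact Submodule.add_mem _ hx hy
        · intro q x _ hx
          rw [C.comp_smul]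
          exact Submodule.smul_mem _ q hx
      · rw [C.zero_comp, C.zero_comp]
        exact Submodule.zero_mem _
      · intro x y _ _ hx hy
        rw [C.add_comp, C.add_comp]
        exact Submodule.add_mem _ hx hy
      · intro q x _ hx
        rw [C.smul_comp, C.smul_comp]
        exact Submodule.smul_mem _ q hx

/-- If the `Γ`-invariant correspondences are combinations of the diagonal and of correspondences
which factor through `M`, with composites in a space `S` of self-correspondences of `M` whose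
homologically trivial elements form a nilpotent ring, then the `Γ`-invariant homologically trivial
correspondences of `X` form a nilpotent ring. -/
theorem nilInv_of_factorInv (Γ : Subgroup (SemiAut X)) {A : Set (CH (X.prod M))}
    {B : Set (CH (M.prod X))} {S : Submodule ℚ (CH (M.prod M))} (hS : IsNilRing C M S)
    (hBA : ∀ a ∈ A, ∀ b ∈ B, C.comp b a ∈ S) (h : FactorInv C X Γ A B)
    (hX : ∀ z ∈ through C A B, C.ops.cl _ z ≠ C.ops.cl _ (C.Δ X)) : NilInv C X Γ := by
  obtain ⟨N, hN⟩ := hS.nil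
  refine ⟨2 * N + 1, fun l hl hx => ?_⟩
  have hthr : ∀ γ ∈ l, γ ∈ through C A B ∧ C.ops.cl _ γ = 0 := by
    intro γ hγ
    obtain ⟨h1, h2, h3⟩ := hx γ hγ
    refine ⟨?_, h2⟩
    obtain ⟨c, z, hz, rfl⟩ := h γ h1 h3
    by_cases hc : c = 0
    · rw [hc, zero_smul, zero_add]
      exact hz
    · exfalso
      apply hX ((-c⁻¹) • z) (Submodule.smul_mem _ _ hz)
      have h4 : C.cl _ (c • C.Δ X + z) = 0 := h2
      have h5 : C.cl _ ((-c⁻¹) • z) = C.cl _ (C.Δ X) := by
        have h6 : (-c⁻¹) • z = C.Δ X + (-c⁻¹) • (c • C.Δ X + z) := by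
          rw [smul_add, smul_smul, neg_mul, inv_mul_cancel₀ hc]
          module
        rw [h6, map_add, cl_smul, h4, smul_zero, add_zero]
      exact h5
  have h1 := compList_mem_span hS hBA N l hl hthr
  have h2 : Submodule.span ℚ {z | ∃ a ∈ A, ∃ b ∈ B, ∃ l' : List (CH (M.prod M)),
        l'.length = N ∧ (∀ σ ∈ l', σ ∈ S ∧ C.ops.cl _ σ = 0) ∧
          z = C.comp (C.comp a (compList C M l')) b} ≤ ⊥ := by
    refine Submodule.span_le.2 ?_
    rintro _ ⟨a, -, b, -, l', hl1, hl2, rfl⟩
    rw [hN l' hl1 hl2, C.comp_zero, C.zero_comp]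
    exact Submodule.zero_mem _
  exact (Submodule.mem_bot ℚ).1 (h2 h1)

end Factor

section Graph

variable (C : ChowTheory W) {X M : SmProjVar k}

/-- The class of the graph of `j` in `CH(X × M)`. -/
noncomputable def graph (j : X.toOver ⟶ M.toOver) : CH (X.prod M) :=
  C.ops.push (lift (𝟙 X.toOver) j) (one X)

/-- The class of the transposed graph of `j` in `CH(M × X)`. -/
noncomputable def graphT (j : X.toOver ⟶ M.toOver) : CH (M.prod X) :=
  C.ops.push (lift j (𝟙 X.toOver)) (one X)

/-- `(x, y) ↦ (f x, y)`. -/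
noncomputable def prodId (Y : SmProjVar k) (j : X.toOver ⟶ M.toOver) :
    (X.prod Y).toOver ⟶ (M.prod Y).toOver :=
  lift (fst X Y ≫ j) (snd X Y)

/-- `(x, y) ↦ (x, f x, y)`. -/
noncomputable def graph12 (Y : SmProjVar k) (j : X.toOver ⟶ M.toOver) :
    (X.prod Y).toOver ⟶ (X.prod (M.prod Y)).toOver :=
  lift (fst X Y) (prodId Y j)

omit [CharZero K] in
lemma isPullback_graph12 (Y : SmProjVar k) (j : X.toOver ⟶ M.toOver) :
    IsPullback (fst X Y) (graph12 Y j) (lift (𝟙 X.toOver) j) (p12 X M Y) := by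
  refine isPullback_mk _ _ _ _ ?_ ?_ ?_
  · apply prod_ext
    · simp [graph12, prodId, p12]
    · simp [graph12, prodId, p12]
  · intro T s t h
    have h1 : s = t ≫ fst X (M.prod Y) := by
      have := congrArg (· ≫ fst X M) h
      simpa [p12] using this
    have h2 : s ≫ j = t ≫ snd X (M.prod Y) ≫ fst M Y := by
      have := congrArg (· ≫ snd X M) h
      simpa [p12] using this
    refine ⟨liftT s (t ≫ snd _ _ ≫ snd _ _), by simp, ?_⟩
    apply prod_ext
    · simp [graph12, ← h1]
    · apply prod_ext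
      · simp [graph12, prodId, h2]
      · simp [graph12, prodId]
  · intro T l l' h1 h2
    apply prod_ext
    · exact h1
    · have := congrArg (· ≫ snd X (M.prod Y) ≫ snd M Y) h2
      simpa [graph12, prodId] using this

/-- `z ∘ Γ_j = (j × 1)^* z`. -/
lemma comp_graph {Y : SmProjVar k} (j : X.toOver ⟶ M.toOver) (z : CH (M.prod Y)) :
    C.comp (graph C j) z = C.pull (prodId Y j) z := by
  have hb := C.base_change (lift (𝟙 X.toOver) j) (p12 X M Y) (fst X Y) (graph12 Y j)
    (isPullback_graph12 Y j) inferInstance (one X)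
  have h1 : C.comp (graph C j) z = C.push (p13 X M Y) (C.mul _
    (C.pull (p12 X M Y) (C.push (lift (𝟙 X.toOver) j) (one X))) (C.pull (p23 X M Y) z)) := rfl
  rw [h1, hb, C.pull_one, ← C.projection, ← C.push_comp, C.one_mul, ← C.pull_comp]
  have h2 : graph12 Y j ≫ p13 X M Y = 𝟙 _ := by
    apply prod_ext <;> simp [graph12, prodId, p13]
  have h3 : graph12 Y j ≫ p23 X M Y = prodId Y j := by
    simp [graph12]
  rw [h2, h3, C.push_id]

/-- `ᵗΓ_j ∘ z = (1 × j)^* z`. -/
lemma comp_graphT {Y : SmProjVar k} (j : X.toOver ⟶ M.toOver) (z : CH (Y.prod M)) :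
    C.comp z (graphT C j) = C.pull (idProd Y j) z := by
  have hb := C.base_change (lift j (𝟙 X.toOver)) (p23 Y M X) (snd Y X)
    (idProd Y (lift j (𝟙 X.toOver))) (isPullback_snd Y (lift j (𝟙 X.toOver))) inferInstance (one X)
  have h1 : C.comp z (graphT C j) = C.push (p13 Y M X) (C.mul _ (C.pull (p12 Y M X) z)
    (C.pull (p23 Y M X) (C.push (lift j (𝟙 X.toOver)) (one X)))) := rfl
  rw [h1, hb, C.pull_one, ← C.projection', ← C.push_comp, C.mul_one, ← C.pull_comp]
  have h2 : idProd Y (lift j (𝟙 X.toOver)) ≫ p13 Y M X = 𝟙 _ := by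
    apply prod_ext <;> simp [idProd, p13]
  have h3 : idProd Y (lift j (𝟙 X.toOver)) ≫ p12 Y M X = idProd Y j := by
    apply prod_ext <;> simp [idProd, p12]
  rw [h2, h3, C.push_id]

/-- `(j × j)^* z = ᵗΓ_j ∘ z ∘ Γ_j`. -/
lemma pull_sq (j : X.toOver ⟶ M.toOver) (z : CH (M.prod M)) :
    C.pull (lift (fst X X ≫ j) (snd X X ≫ j)) z = C.comp (C.comp (graph C j) z) (graphT C j) := by
  rw [comp_graphT, comp_graph, ← C.pull_comp]
  congr 1
  have h : lift (fst X X ≫ j) (snd X X ≫ j) = idProd X j ≫ prodId M j := by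
    apply prod_ext <;> simp [idProd, prodId]
  rw [h]

variable {C}

lemma graph_mem (j : X.toOver ⟶ M.toOver) : graph C j ∈ CHi (X.prod M) M.dim := by
  refine C.push_mem _ 0 M.dim ?_ _ (ChowTheory.one_mem_iff (pointDim_genericPt W X))
  change 0 + (M.dim + X.dim) = M.dim + X.dim
  omega

lemma graphT_mem (j : X.toOver ⟶ M.toOver) : graphT C j ∈ CHi (M.prod X) M.dim := by
  refine C.push_mem _ 0 M.dim ?_ _ (ChowTheory.one_mem_iff (pointDim_genericPt W X))
  change 0 + (X.dim + M.dim) = M.dim + X.dim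
  omega

/-- The transposed graph of `j` acts on cohomology as `j^*`. -/
lemma hAct_graphT (j : X.toOver ⟶ M.toOver) (y : W.H M) :
    hAct C (graphT C j) y = W.pull j y := by
  apply eq_of_tr
  intro x
  rw [tr_hAct, pairH_apply, ← even_comm W _ M.dim _ _ (C.cl_mem _ _ _ (graphT_mem j)), mul_assoc]
  have h1 : C.cl _ (graphT C j) = C.cl _ (C.push (lift j (𝟙 X.toOver)) (one X)) := rfl
  rw [h1, C.cl_push, cl_one, one_mul, (W.pull_hom (lift j (𝟙 X.toOver))).map_mul,
    ← W.pull_comp, ← W.pull_comp, lift_fst, lift_snd, W.pull_id]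

/-- If the `Γ`-invariant correspondences are combinations of the diagonal and of restrictions
`(j × j)^* z` of classes `z` on `M × M`, the homologically trivial self-correspondences of `M` form
a nilpotent ring, and `H(M) → H(X)` is not surjective, then the `Γ`-invariant homologically trivial
correspondences of `X` form a nilpotent ring. -/
theorem nilInv_of_good (j : X.toOver ⟶ M.toOver) (Γ : Subgroup (SemiAut X))
    (hgood : ∀ γ ∈ CHi (X.prod X) X.dim,
      (∀ g ∈ Γ, (Pool.Agent.Helper47.Desc.sq g).chow γ = γ) →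
      γ ∈ Submodule.span ℚ ({C.Δ X} ∪ {γ | ∃ z ∈ CHi (M.prod M) X.dim,
        γ = C.ops.pull (lift (fst X X ≫ j) (snd X X ≫ j)) z}))
    (hM : ∃ N, ∀ l : List (CH (M.prod M)), l.length = N →
      (∀ γ ∈ l, γ ∈ CHi (M.prod M) M.dim ∧ C.ops.cl _ γ = 0) → compList C M l = 0)
    (hvan : ∃ x : W.H X, x ∉ Set.range (W.pull j)) : NilInv C X Γ := by
  let A : Set (CH (X.prod M)) := {a | ∃ z ∈ CHi (M.prod M) X.dim, a = C.comp (graph C j) z}
  let B : Set (CH (M.prod X)) := {graphT C j}
  have hAm : ∀ a ∈ A, a ∈ CHi (X.prod M) X.dim := by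
    rintro _ ⟨z, hz, rfl⟩
    exact comp_mem' C _ _ (graph_mem j) hz (by omega)
  have hS : IsNilRing C M (CHiL (M.prod M) M.dim) := by
    refine ⟨fun σ hσ τ hτ => C.comp_mem _ _ hσ hτ, ?_⟩
    obtain ⟨N, hN⟩ := hM
    exact ⟨N, fun l hl h => hN l hl h⟩
  have hBA : ∀ a ∈ A, ∀ b ∈ B, C.comp b a ∈ CHiL (M.prod M) M.dim := by
    rintro a ha _ rfl
    exact comp_mem' C _ _ (graphT_mem j) (hAm a ha) (by omega)
  have hthr : ∀ z ∈ CHi (M.prod M) X.dim,
      C.ops.pull (lift (fst X X ≫ j) (snd X X ≫ j)) z ∈ through C A B := by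
    intro z hz
    refine Submodule.subset_span ⟨_, ⟨z, hz, rfl⟩, _, rfl, ?_⟩
    exact pull_sq C j z
  refine nilInv_of_factorInv Γ hS hBA ?_ ?_
  · intro γ hγ hinv
    refine Submodule.span_induction
      (p := fun γ _ => ∃ c : ℚ, ∃ z ∈ through C A B, γ = c • C.Δ X + z) ?_ ?_ ?_ ?_
      (hgood γ hγ hinv)
    · rintro γ (rfl | ⟨z, hz, rfl⟩)
      · exact ⟨1, 0, Submodule.zero_mem _, by rw [one_smul, add_zero]⟩
      · exact ⟨0, _, hthr z hz, by rw [zero_smul, zero_add]⟩
    · exact ⟨0, 0, Submodule.zero_mem _, by rw [zero_smul, zero_add]⟩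
    · rintro _ _ _ _ ⟨c, z, hz, rfl⟩ ⟨c', z', hz', rfl⟩
      exact ⟨c + c', z + z', Submodule.add_mem _ hz hz', by rw [add_smul]; abel⟩
    · rintro q _ _ ⟨c, z, hz, rfl⟩
      exact ⟨q * c, q • z, Submodule.smul_mem _ _ hz, by rw [smul_add, mul_smul]⟩
  · intro z hz hcl
    obtain ⟨x, hx⟩ := hvan
    apply hx
    have h1 : ∀ z ∈ through C A B, hAct C z x ∈ LinearMap.range (pullL W j) := by
      intro z hz
      refine Submodule.span_induction (p := fun z _ => hAct C z x ∈ LinearMap.range (pullL W j))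
        ?_ ?_ ?_ ?_ hz
      · rintro _ ⟨a, ha, _, rfl, rfl⟩
        rw [hAct_comp C _ _ (hAm a ha) (graphT_mem j) (l := X.dim) rfl, hAct_graphT]
        exact ⟨_, rfl⟩
      · rw [hAct_zero_left]
        exact Submodule.zero_mem _
      · intro z z' _ _ h h'
        rw [hAct_add_left]
        exact Submodule.add_mem _ h h'
      · intro q z _ h
        have h2 : hAct C (q • z) x = (q : K) • hAct C z x := by
          apply eq_of_tr
          intro y
          rw [tr_hAct, pairH_smul, smul_mul_assoc, (W.trace X).map_smul, tr_hAct]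
        rw [h2]
        exact Submodule.smul_mem _ _ h
    obtain ⟨y, hy⟩ := h1 z hz
    refine ⟨y, ?_⟩
    have h2 : hAct C z x = x := by
      conv_rhs => rw [← hAct_Δ C x]
      unfold hAct
      have h3 : C.cl _ z = C.cl _ (C.Δ X) := hcl
      rw [h3]
    exact hy.trans h2

end Graph

end Pool.Agent.Helper11.Murre
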